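import Pool.Agent.Y187.SP.Group

set_option autoImplicit false

namespace Pool.Agent.Y187.SP

open Set Filter Topology

/-- every real is eventually, and locally everywhere, split by a point of `W n` and its
reflection -/
def Good (J : ℕ → Set ℝ) (W : ℕ → Set ℝ) : Prop :=
  ∀ z : ℝ, ∀ j : ℕ, ∀ᶠ n in atTop, ∃ x ∈ J j, x ∈ W n ∧ z - x ∈ W n

/-- a well-order with countable initial segments -/
theorem exists_wellOrder {T : Type} (hT : Cardinal.mk T = Cardinal.aleph 1) :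
    ∃ r : T → T → Prop, ∃ _ : IsWellOrder T r, ∀ t, {s | r s t}.Countable := by
  obtain ⟨r, wo, hr⟩ := Cardinal.exists_ord_eq T
  refine ⟨r, wo, fun t => ?_⟩
  have h1 : Ordinal.typein r t < Ordinal.type r := Ordinal.typein_lt_type r t
  rw [← hr, hT] at h1
  have h2 : (Ordinal.typein r t).card < Cardinal.aleph 1 := Cardinal.lt_ord.1 h1
  have h3 : Cardinal.mk {s // r s t} < Cardinal.aleph 1 := by
    have : (Ordinal.typein r t).card = Cardinal.mk {s // r s t} := by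
      rw [Ordinal.typein]
      simp
    rw [← this]
    exact h2
  rw [← Cardinal.le_aleph0_iff_set_countable]
  have h4 : (Cardinal.aleph 1 : Cardinal.{0}) = Order.succ Cardinal.aleph0 := by
    rw [← Cardinal.aleph_zero, Cardinal.succ_aleph]
    congr 1
    simp
  rw [h4] at h3
  exact Order.lt_succ_iff.1 h3

theorem residual_split (J : ℕ → Set ℝ) (hJb : ∀ O : Set ℝ, IsOpen O → ∀ x ∈ O, ∃ j, x ∈ J j ∧ J j ⊆ O)
    (W : ℕ → Set ℝ) (hW : ∀ n, IsOpen (W n)) (hg : Good J W) (z : ℝ) (A : Set ℕ)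
    (hA : A.Infinite) :
    {b : ℝ | {n | n ∈ A ∧ b ∈ W n ∧ z - b ∈ W n}.Infinite} ∈ residual ℝ := by
  have h1 : ∀ k : ℕ, (⋃ n ∈ {n | n ∈ A ∧ k ≤ n}, (W n ∩ (fun b => z - b) ⁻¹' W n)) ∈ residual ℝ := by
    intro k
    apply residual_of_dense_open
    · apply isOpen_biUnion
      intro n _
      exact (hW n).inter ((hW n).preimage (by fun_prop))
    · rw [dense_iff_inter_open]
      intro O hO ⟨x, hx⟩
      obtain ⟨j, hj1, hj2⟩ := hJb O hO x hx
      have h2 := hg z j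
      rw [eventually_atTop] at h2
      obtain ⟨N, hN⟩ := h2
      obtain ⟨n, hn1, hn2⟩ := hA.exists_gt (max N k)
      obtain ⟨y, hy1, hy2, hy3⟩ := hN n (by omega)
      refine ⟨y, hj2 hy1, ?_⟩
      simp only [mem_iUnion]
      exact ⟨n, ⟨hn1, by omega⟩, hy2, hy3⟩
  have h2 := countable_iInter_mem.2 h1
  refine mem_of_superset h2 ?_
  intro b hb
  rw [mem_iInter] at hb
  show {n | n ∈ A ∧ b ∈ W n ∧ z - b ∈ W n}.Infinite
  rw [Set.infinite_iff_exists_gt] 
  intro k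
  have := hb (k + 1)
  simp only [mem_iUnion] at this
  obtain ⟨n, ⟨hn1, hn2⟩, hn3, hn4⟩ := this
  exact ⟨n, ⟨hn1, hn3, hn4⟩, by omega⟩

theorem exists_X (hCH : Cardinal.aleph 1 = Cardinal.continuum.{0}) (J : ℕ → Set ℝ)
    (hJo : ∀ j, IsOpen (J j)) (hJn : ∀ j, (J j).Nonempty)
    (hJb : ∀ O : Set ℝ, IsOpen O → ∀ x ∈ O, ∃ j, x ∈ J j ∧ J j ⊆ O) :
    ∃ X : Set ℝ, (∀ j, ∃ y ∈ X, y ∈ J j) ∧ (∀ z, ∃ a ∈ X, ∃ b ∈ X, a + b = z) ∧
      ∀ W : ℕ → Set ℝ, (∀ n, IsOpen (W n)) → Good J W → ∃ C ⊆ X, C.Countable ∧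
        ∀ F : Finset ℝ, (∀ y ∈ F, y ∈ X ∧ y ∉ C) → {n | ∀ y ∈ F, y ∈ W n}.Infinite := by
  classical
  let T : Type := ℝ × ℕ × Set (ℕ × ℕ)
  have hT : Cardinal.mk T = Cardinal.aleph 1 := by
    rw [hCH]
    show Cardinal.mk (ℝ × ℕ × Set (ℕ × ℕ)) = Cardinal.continuum
    rw [Cardinal.mk_prod, Cardinal.mk_prod]
    simp only [Cardinal.lift_id, Cardinal.mk_real, Cardinal.mk_nat, Cardinal.mk_set, Cardinal.mk_prod,
      Cardinal.aleph0_mul_aleph0, Cardinal.two_power_aleph0, Cardinal.aleph0_mul_continuum,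
      Cardinal.continuum_mul_self]
  obtain ⟨r, wo, hr⟩ := exists_wellOrder hT
  let W : Set (ℕ × ℕ) → ℕ → Set ℝ := fun c n => ⋃ i ∈ {i | (n, i) ∈ c}, J i
  have hWo : ∀ c n, IsOpen (W c n) := fun c n => isOpen_biUnion (fun i _ => hJo i)
  have hWc : ∀ V : ℕ → Set ℝ, (∀ n, IsOpen (V n)) → ∃ c, W c = V := by
    intro V hV
    refine ⟨{p | J p.2 ⊆ V p.1}, ?_⟩
    funext n
    apply Subset.antisymm
    · intro x hx
      simp only [W, mem_iUnion] at hx
      obtain ⟨i, hi, hx⟩ := hx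
      exact hi hx
    · intro x hx
      obtain ⟨j, hj1, hj2⟩ := hJb (V n) (hV n) x hx
      simp only [W, mem_iUnion]
      exact ⟨j, hj2, hj1⟩
  -- the recursion
  let Q : (t : T) → ((s : T) → r s t → ℝ) → ℝ → Prop := fun t f b =>
    b ∈ J t.2.1 ∧ ∀ s : {s // r s t}, Good J (W s.1.2.2) → ∀ S : Finset {s // r s t},
      {n | ∀ u ∈ S, f u.1 u.2 ∈ W s.1.2.2 n ∧ u.1.1 - f u.1 u.2 ∈ W s.1.2.2 n}.Infinite →
      {n | n ∈ {n | ∀ u ∈ S, f u.1 u.2 ∈ W s.1.2.2 n ∧ u.1.1 - f u.1 u.2 ∈ W s.1.2.2 n} ∧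
        b ∈ W s.1.2.2 n ∧ t.1 - b ∈ W s.1.2.2 n}.Infinite
  have hQ : ∀ t f, ∃ b, Q t f b := by
    intro t f
    have : Countable {s // r s t} := (hr t).to_subtype
    have h1 : ∀ p : {s // r s t} × Finset {s // r s t}, 
        {b : ℝ | Good J (W p.1.1.2.2) → {n | ∀ u ∈ p.2, f u.1 u.2 ∈ W p.1.1.2.2 n ∧
          u.1.1 - f u.1 u.2 ∈ W p.1.1.2.2 n}.Infinite →
          {n | n ∈ {n | ∀ u ∈ p.2, f u.1 u.2 ∈ W p.1.1.2.2 n ∧
            u.1.1 - f u.1 u.2 ∈ W p.1.1.2.2 n} ∧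
            b ∈ W p.1.1.2.2 n ∧ t.1 - b ∈ W p.1.1.2.2 n}.Infinite} ∈ residual ℝ := by
      intro p
      by_cases hg : Good J (W p.1.1.2.2)
      · by_cases hi : {n | ∀ u ∈ p.2, f u.1 u.2 ∈ W p.1.1.2.2 n ∧
          u.1.1 - f u.1 u.2 ∈ W p.1.1.2.2 n}.Infinite
        · refine mem_of_superset (residual_split J hJb (W p.1.1.2.2) (hWo _) hg t.1 _ hi) ?_
          intro b hb _ _
          exact hb
        · refine mem_of_superset univ_mem ?_
          intro b _ _ h
          exact absurd h hi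
      · refine mem_of_superset univ_mem ?_
        intro b _ h
        exact absurd h hg
    have h2 := countable_iInter_mem.2 h1
    have h3 := dense_of_mem_residual h2
    obtain ⟨b, hb1, hb2⟩ := h3.inter_open_nonempty (J t.2.1) (hJo _) (hJn _)
    rw [mem_iInter] at hb2
    exact ⟨b, hb1, fun s hg S hi => hb2 (s, S) hg hi⟩
  obtain ⟨x, hx⟩ := wf_choice (IsWellFounded.wf : WellFounded r) Q hQ
  have key : ∀ s : T, Good J (W s.2.2) → ∀ S : Finset T, (∀ u ∈ S, r s u) →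
      {n | ∀ u ∈ S, x u ∈ W s.2.2 n ∧ u.1 - x u ∈ W s.2.2 n}.Infinite := by
    intro s hg
    let _ : LinearOrder T := linearOrderOfSTO r
    intro S
    induction S using Finset.induction_on_max with
    | empty =>
      intro _
      simp only [Finset.notMem_empty, false_imp_iff, implies_true, ofPred_true]
      exact infinite_univ
    | insert t S ht ih =>
      intro hS
      have h1 := ih (fun u hu => hS u (Finset.mem_insert_of_mem hu))
      have h2 := (hx t).2 ⟨s, hS t (Finset.mem_insert_self t S)⟩ hg (S.subtype (fun u => r u t))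
      have e : {n | ∀ u ∈ S.subtype (fun u => r u t), x u.1 ∈ W s.2.2 n ∧
          u.1.1 - x u.1 ∈ W s.2.2 n} = {n | ∀ u ∈ S, x u ∈ W s.2.2 n ∧ u.1 - x u ∈ W s.2.2 n} := by
        ext n
        constructor
        · intro h u hu
          exact h ⟨u, ht u hu⟩ (Finset.mem_subtype.2 hu)
        · intro h u hu
          exact h u.1 (Finset.mem_subtype.1 hu)
      have h3 := h2 (by rw [e]; exact h1)
      refine h3.mono ?_
      rintro n ⟨hn1, hn2⟩ u hu
      rcases Finset.mem_insert.1 hu with rfl | hu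
      · exact hn2
      · exact hn1 ⟨u, ht u hu⟩ (Finset.mem_subtype.2 hu)
  let X : Set ℝ := {y | ∃ t : T, y = x t ∨ y = t.1 - x t}
  refine ⟨X, ?_, ?_, ?_⟩
  · intro j
    let t : T := ((0 : ℝ), j, (∅ : Set (ℕ × ℕ)))
    exact ⟨x t, ⟨t, Or.inl rfl⟩, (hx t).1⟩
  · intro z
    let t : T := (z, 0, ∅)
    exact ⟨x t, ⟨t, Or.inl rfl⟩, z - x t, ⟨t, Or.inr rfl⟩, by ring⟩
  · intro V hV hg
    obtain ⟨c, hc⟩ := hWc V hV
    let s : T := (0, 0, c)
    have hgs : Good J (W s.2.2) := by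
      show Good J (W c)
      rw [hc]; exact hg
    have hcount : {u | ¬ r s u}.Countable := by
      refine ((hr s).insert s).mono ?_
      intro u hu
      rcases trichotomous_of r s u with h | h | h
      · exact absurd h hu
      · exact Or.inl h.symm
      · exact Or.inr h
    let C : Set ℝ := (x '' {u | ¬ r s u}) ∪ ((fun u => u.1 - x u) '' {u | ¬ r s u})
    refine ⟨C, ?_, (hcount.image _).union (hcount.image _), ?_⟩
    · rintro y (⟨u, -, rfl⟩ | ⟨u, -, rfl⟩)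
      · exact ⟨u, Or.inl rfl⟩
      · exact ⟨u, Or.inr rfl⟩
    · intro F hF
      have h1 : ∀ y : ℝ, ∃ u : T, y ∈ F → (r s u ∧ (y = x u ∨ y = u.1 - x u)) := by
        intro y
        by_cases hy : y ∈ F
        · obtain ⟨⟨u, hu⟩, hyC⟩ := hF y hy
          refine ⟨u, fun _ => ⟨?_, hu⟩⟩
          by_contra hru
          apply hyC
          rcases hu with hu | hu
          · exact Or.inl ⟨u, hru, hu.symm⟩
          · exact Or.inr ⟨u, hru, hu.symm⟩
        · exact ⟨s, fun h => absurd h hy⟩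
      choose u hu using h1
      have h2 := key s hgs (F.image u) (by
        intro v hv
        obtain ⟨y, hy, rfl⟩ := Finset.mem_image.1 hv
        exact (hu y hy).1)
      refine h2.mono ?_
      intro n hn y hy
      have h3 := hn (u y) (Finset.mem_image_of_mem u hy)
      have h4 : W s.2.2 n = V n := by
        show W c n = V n
        rw [hc]
      rw [h4] at h3
      rcases (hu y hy).2 with h | h
      · rw [h]; exact h3.1
      · rw [h]; exact h3.2

end Pool.Agent.Y187.SP
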