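import Mathlib

/-!
Selection principles on a topological space: open covers, omega-covers, omega-groupable covers.
-/

set_option autoImplicit false

namespace Pool.Agent.Y187.SP

open Set

/-- `𝒰` is an open cover of the space `Y`. -/
def IsOpenCover {Y : Type} [TopologicalSpace Y] (𝒰 : Set (Set Y)) : Prop :=
  (∀ U ∈ 𝒰, IsOpen U) ∧ ⋃₀ 𝒰 = univ

/-- `𝒰` is an `ω`-cover of the space `Y`. -/
def IsOmegaCover {Y : Type} [TopologicalSpace Y] (𝒰 : Set (Set Y)) : Prop :=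
  IsOpenCover 𝒰 ∧ univ ∉ 𝒰 ∧ ∀ F : Finset Y, ∃ U ∈ 𝒰, (F : Set Y) ⊆ U

/-- `𝒰` is an `ω`-groupable open cover of `Y`: it has a partition into nonempty finite sets
`𝓕 n` such that every finite subset of `Y` is contained in the union of some `𝓕 n`. -/
def IsOmegaGroupable {Y : Type} [TopologicalSpace Y] (𝒰 : Set (Set Y)) : Prop :=
  IsOpenCover 𝒰 ∧ ∃ 𝓕 : ℕ → Set (Set Y),
    (∀ n, (𝓕 n).Finite ∧ (𝓕 n).Nonempty) ∧ (∀ m n, m ≠ n → Disjoint (𝓕 m) (𝓕 n)) ∧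
      ⋃ n, 𝓕 n = 𝒰 ∧ ∀ F : Finset Y, ∃ n, (F : Set Y) ⊆ ⋃₀ 𝓕 n

/-- The selection principle `S₁(𝔄, 𝔅)` for the space `Y`. -/
def S1 {Y : Type} (A B : Set (Set Y) → Prop) : Prop :=
  ∀ 𝒰 : ℕ → Set (Set Y), (∀ n, A (𝒰 n)) →
    ∃ U : ℕ → Set Y, (∀ n, U n ∈ 𝒰 n) ∧ B (range U)

end Pool.Agent.Y187.SP
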