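import Pool.Agent.Y187.SP.Defs

set_option autoImplicit false

namespace Pool.Agent.Y187.SP

open Set Filter Topology MeasureTheory

theorem exists_open_sum_small (F : Set ℝ) (hF : F.Finite) (ε : ENNReal) (hε : 0 < ε) :
    ∃ O : Set ℝ, IsOpen O ∧ F ⊆ O ∧ volume (image2 (· + ·) O O) ≤ ε := by
  have hK : (image2 (· + ·) F F).Finite := hF.image2 _ hF
  have h1 : Tendsto (fun r => volume (Metric.thickening r (image2 (· + ·) F F))) (𝓝[>] 0)
      (𝓝 (volume (image2 (· + ·) F F))) := by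
    apply tendsto_measure_thickening_of_isClosed
    · refine ⟨1, one_pos, ?_⟩
      have hb : Bornology.IsBounded (Metric.thickening 1 (image2 (· + ·) F F)) :=
        (hK.isBounded).thickening
      exact hb.measure_lt_top.ne
    · exact hK.isClosed
  rw [hK.measure_zero] at h1
  have h2 : ∀ᶠ r in 𝓝[>] (0 : ℝ), volume (Metric.thickening r (image2 (· + ·) F F)) < ε :=
    h1.eventually (gt_mem_nhds hε)
  obtain ⟨r, hr, hr0⟩ := (h2.and self_mem_nhdsWithin).exists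
  have hr0 : 0 < r := hr0
  refine ⟨Metric.thickening (r / 2) F, Metric.isOpen_thickening,
    Metric.self_subset_thickening (by positivity) _, le_trans (measure_mono ?_) hr.le⟩
  rintro _ ⟨x, hx, y, hy, rfl⟩
  rw [Metric.mem_thickening_iff] at hx hy
  obtain ⟨a, ha, hxa⟩ := hx
  obtain ⟨b, hb, hyb⟩ := hy
  rw [Metric.mem_thickening_iff]
  refine ⟨a + b, ⟨a, ha, b, hb, rfl⟩, ?_⟩
  calc dist (x + y) (a + b) ≤ dist x a + dist y b := dist_add_add_le _ _ _ _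
    _ < r := by linarith

theorem not_S1_omega_omega (X : Set ℝ) (hX : ∀ z : ℝ, ∃ a ∈ X, ∃ b ∈ X, a + b = z) :
    ¬ S1 (Y := X) IsOmegaCover IsOmegaCover := by
  classical
  intro h
  let 𝒰 : ℕ → Set (Set X) := fun n => {U | ∃ O : Set ℝ, IsOpen O ∧ U = Subtype.val ⁻¹' O ∧
    volume (image2 (· + ·) O O) ≤ (2⁻¹ : ENNReal) ^ n}
  have hcov : ∀ n, ∀ F : Finset X, ∃ U ∈ 𝒰 n, (F : Set X) ⊆ U := by
    intro n F
    obtain ⟨O, hO1, hO2, hO3⟩ := exists_open_sum_small (Subtype.val '' (F : Set X))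
      ((F.finite_toSet).image _) ((2⁻¹ : ENNReal) ^ n)
      (ENNReal.pow_pos (by simp) n)
    exact ⟨Subtype.val ⁻¹' O, ⟨O, hO1, rfl, hO3⟩, fun y hy => hO2 ⟨y, hy, rfl⟩⟩
  have hpow : ∀ n : ℕ, (2⁻¹ : ENNReal) ^ n < ⊤ := fun n => ENNReal.pow_lt_top (by simp)
  obtain ⟨U, hU1, hU2⟩ := h 𝒰 (by
    intro n
    refine ⟨⟨?_, ?_⟩, ?_, hcov n⟩
    · rintro V ⟨O, hO, rfl, -⟩
      exact hO.preimage continuous_subtype_val
    · rw [eq_univ_iff_forall]
      intro y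
      obtain ⟨V, hV1, hV2⟩ := hcov n {y}
      exact ⟨V, hV1, hV2 (by simp)⟩
    · rintro ⟨O, -, hO2, hO3⟩
      have h1 : (univ : Set ℝ) ⊆ image2 (· + ·) O O := by
        intro z _
        obtain ⟨a, ha, b, hb, hab⟩ := hX z
        have ha' : (⟨a, ha⟩ : X) ∈ (Subtype.val ⁻¹' O : Set X) := hO2 ▸ mem_univ _
        have hb' : (⟨b, hb⟩ : X) ∈ (Subtype.val ⁻¹' O : Set X) := hO2 ▸ mem_univ _
        exact ⟨a, ha', b, hb', hab⟩
      have h2 := (measure_mono h1).trans hO3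
      rw [Real.volume_univ, top_le_iff] at h2
      exact (hpow n).ne h2)
  choose O hO1 hO2 hO3 using hU1
  have h1 : (univ : Set ℝ) ⊆ ⋃ n, image2 (· + ·) (O n) (O n) := by
    intro z _
    obtain ⟨a, ha, b, hb, hab⟩ := hX z
    obtain ⟨V, ⟨n, rfl⟩, hn⟩ := hU2.2.2 {⟨a, ha⟩, ⟨b, hb⟩}
    have ha' : (⟨a, ha⟩ : X) ∈ U n := hn (by simp)
    have hb' : (⟨b, hb⟩ : X) ∈ U n := hn (by simp)
    rw [hO2 n] at ha' hb'
    exact mem_iUnion.2 ⟨n, a, ha', b, hb', hab⟩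
  have h2 : volume (univ : Set ℝ) ≤ ∑' n : ℕ, (2⁻¹ : ENNReal) ^ n :=
    (measure_mono h1).trans ((measure_iUnion_le _).trans (ENNReal.tsum_le_tsum hO3))
  rw [Real.volume_univ, top_le_iff, ENNReal.tsum_geometric, ENNReal.one_sub_inv_two, inv_inv] at h2
  exact absurd h2 (by simp)

end Pool.Agent.Y187.SP
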