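import Pool.Agent.Y187.SP.Select
import Pool.Agent.Y187.SP.Neg

set_option autoImplicit false

namespace Pool.Agent.Y187.SP

open Set Filter Topology

theorem exists_basis : ∃ J : ℕ → Set ℝ, (∀ j, IsOpen (J j)) ∧ (∀ j, (J j).Nonempty) ∧
    ∀ O : Set ℝ, IsOpen O → ∀ x ∈ O, ∃ j, x ∈ J j ∧ J j ⊆ O := by
  obtain ⟨b, hb1, hb2, hb3⟩ := TopologicalSpace.exists_countable_basis ℝ
  have hne : b.Nonempty := by
    obtain ⟨v, hv, -, -⟩ := hb3.exists_subset_of_mem_open (mem_univ (0 : ℝ)) isOpen_univ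
    exact ⟨v, hv⟩
  obtain ⟨J, rfl⟩ := hb1.exists_eq_range hne
  refine ⟨J, fun j => hb3.isOpen ⟨j, rfl⟩, fun j => ?_, fun O hO x hx => ?_⟩
  · rw [nonempty_iff_ne_empty]
    intro h
    exact hb2 ⟨j, h⟩
  · obtain ⟨v, ⟨j, rfl⟩, h1, h2⟩ := hb3.exists_subset_of_mem_open hx hO
    exact ⟨j, h1, h2⟩

/-- Under the continuum hypothesis there is a set of reals `X` with `X + X = ℝ` for which every
sequence of `ω`-covers has a selection with a strongly groupable range. -/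
theorem exists_separation (hCH : Cardinal.aleph 1 = Cardinal.continuum.{0}) :
    ∃ X : Set ℝ, (∀ 𝒰 : ℕ → Set (Set X), (∀ n, IsOmegaCover (𝒰 n)) →
      ∃ U : ℕ → Set X, (∀ n, U n ∈ 𝒰 n) ∧ StronglyGroupable (range U)) ∧
      ∀ z : ℝ, ∃ a ∈ X, ∃ b ∈ X, a + b = z := by
  obtain ⟨J, hJo, hJn, hJb⟩ := exists_basis
  obtain ⟨X, hX1, hX2, hX3⟩ := exists_X hCH J hJo hJn hJb
  exact ⟨X, selection J hJo hJb X hX1 hX3, hX2⟩

theorem exists_X_groupable (hCH : Cardinal.aleph 1 = Cardinal.continuum.{0}) :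
    ∃ X : Set ℝ, S1 (Y := X) IsOmegaCover IsOmegaGroupable ∧
      ¬ S1 (Y := X) IsOmegaCover IsOmegaCover := by
  obtain ⟨X, h1, h2⟩ := exists_separation hCH
  refine ⟨X, fun 𝒰 h𝒰 => ?_, not_S1_omega_omega X h2⟩
  obtain ⟨U, hU1, hU2⟩ := h1 𝒰 h𝒰
  refine ⟨U, hU1, hU2.isOmegaGroupable ?_⟩
  rintro V ⟨n, rfl⟩
  exact (h𝒰 n).1.1 _ (hU1 n)

end Pool.Agent.Y187.SP
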