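import Pool.Agent.Y187.SP.Defs

set_option autoImplicit false

namespace Pool.Agent.Y187.SP

open Set Filter

/-- dependent choice along a well-founded relation -/
theorem wf_choice {T : Type*} {β : Type*} {r : T → T → Prop} (hr : WellFounded r)
    (Q : (t : T) → ((s : T) → r s t → β) → β → Prop) (h : ∀ t f, ∃ b, Q t f b) :
    ∃ g : T → β, ∀ t, Q t (fun s _ => g s) (g t) := by
  classical
  let F : (t : T) → ((s : T) → r s t → β) → β := fun t f => Classical.choose (h t f)
  let g : T → β := hr.fix F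
  refine ⟨g, fun t => ?_⟩
  have e : g t = F t (fun s _ => g s) := hr.fix_eq F t
  rw [e]
  exact Classical.choose_spec (h t (fun s _ => g s))

/-- removing finitely many members from an `ω`-cover -/
theorem IsOmegaCover.exists_avoid {Y : Type} [TopologicalSpace Y] {𝒰 : Set (Set Y)}
    (h : IsOmegaCover 𝒰) (F : Finset Y) (𝒮 : Set (Set Y)) (h𝒮 : 𝒮.Finite) :
    ∃ U ∈ 𝒰, (F : Set Y) ⊆ U ∧ U ∉ 𝒮 := by
  classical
  have hx : ∀ S : Set Y, ∃ x : Option Y, (S ≠ univ → ∃ y, x = some y ∧ y ∉ S) := by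
    intro S
    by_cases hS : S = univ
    · exact ⟨none, fun h => absurd hS h⟩
    · obtain ⟨y, hy⟩ := (ne_univ_iff_exists_notMem S).1 hS
      exact ⟨some y, fun _ => ⟨y, rfl, hy⟩⟩
  choose x hx using hx
  let G : Finset Y := F ∪ (h𝒮.toFinset.image x).eraseNone
  obtain ⟨U, hU, hGU⟩ := h.2.2 G
  refine ⟨U, hU, fun y hy => hGU ?_, fun hUS => ?_⟩
  · simp only [G, Finset.coe_union]
    exact Or.inl hy
  · have hne : U ≠ univ := fun e => h.2.1 (e ▸ hU)
    obtain ⟨y, hy1, hy2⟩ := hx U hne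
    apply hy2
    apply hGU
    simp only [G, Finset.coe_union]
    right
    rw [Finset.mem_coe, Finset.mem_eraseNone, Finset.mem_image]
    exact ⟨U, by rw [Set.Finite.mem_toFinset]; exact hUS, hy1⟩

/-- The partition of the range of a sequence according to the first occurrence. -/
theorem partition_first {Y : Type} (U : ℕ → Set Y) (M : ℕ → ℕ) (hM : StrictMono M)
    (h0 : M 0 = 0) :
    (∀ m n, m ≠ n → Disjoint (U '' Ico (M m) (M (m + 1)) \ U '' Iio (M m))
        (U '' Ico (M n) (M (n + 1)) \ U '' Iio (M n))) ∧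
      ⋃ n, (U '' Ico (M n) (M (n + 1)) \ U '' Iio (M n)) = range U := by
  classical
  constructor
  · have key : ∀ m n, m < n → Disjoint (U '' Ico (M m) (M (m + 1)) \ U '' Iio (M m))
        (U '' Ico (M n) (M (n + 1)) \ U '' Iio (M n)) := by
      intro m n hmn
      rw [Set.disjoint_left]
      rintro S ⟨⟨i, hi, rfl⟩, -⟩ ⟨-, h2⟩
      apply h2
      refine ⟨i, ?_, rfl⟩
      have : M (m + 1) ≤ M n := hM.monotone hmn
      exact lt_of_lt_of_le hi.2 this
    intro m n hmn
    rcases lt_or_gt_of_ne hmn with h | h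
    · exact key m n h
    · exact (key n m h).symm
  · apply Subset.antisymm
    · intro S hS
      rw [mem_iUnion] at hS
      obtain ⟨n, ⟨i, -, rfl⟩, -⟩ := hS
      exact mem_range_self i
    · rintro S ⟨n, rfl⟩
      -- first occurrence
      have hex : ∃ i, U i = U n := ⟨n, rfl⟩
      let i := Nat.find hex
      have hi : U i = U n := Nat.find_spec hex
      have hmin : ∀ j < i, U j ≠ U n := fun j hj => Nat.find_min hex hj
      have hk : ∃ k, i < M (k + 1) := ⟨i, lt_of_lt_of_le (Nat.lt_succ_self i) (hM.id_le (i + 1))⟩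
      let k := Nat.find hk
      have hk1 : i < M (k + 1) := Nat.find_spec hk
      have hk2 : M k ≤ i := by
        rcases Nat.eq_zero_or_pos k with h | h
        · rw [h, h0]; exact Nat.zero_le _
        · have h1 : ¬ i < M (k - 1 + 1) := Nat.find_min hk (by
            show k - 1 < k
            omega)
          have h2 : k - 1 + 1 = k := by omega
          rw [h2] at h1
          exact not_lt.1 h1
      rw [mem_iUnion]
      refine ⟨k, ⟨i, ⟨hk2, hk1⟩, hi⟩, ?_⟩
      rintro ⟨j, hj, hj2⟩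
      exact hmin j (lt_of_lt_of_le hj hk2) hj2

theorem exists_between {c : ℕ → ℕ} (hc : StrictMono c) (m : ℕ) (h0 : c 0 ≤ m) :
    ∃ k, c k ≤ m ∧ m < c (k + 1) := by
  classical
  have hk : ∃ k, m < c (k + 1) := ⟨m, lt_of_lt_of_le (Nat.lt_succ_self m) (hc.id_le (m + 1))⟩
  refine ⟨Nat.find hk, ?_, Nat.find_spec hk⟩
  rcases Nat.eq_zero_or_pos (Nat.find hk) with h | h
  · rw [h]; exact h0
  · have h1 : ¬ m < c (Nat.find hk - 1 + 1) := Nat.find_min hk (by omega)
    have h2 : Nat.find hk - 1 + 1 = Nat.find hk := by omega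
    rw [h2] at h1
    exact not_lt.1 h1

/-- A partition of `𝒰` into nonempty finite sets such that every finite set is contained in the
union of infinitely many of them. -/
def StronglyGroupable {Y : Type} (𝒰 : Set (Set Y)) : Prop :=
  ∃ 𝓕 : ℕ → Set (Set Y),
    (∀ n, (𝓕 n).Finite ∧ (𝓕 n).Nonempty) ∧ (∀ m n, m ≠ n → Disjoint (𝓕 m) (𝓕 n)) ∧
      ⋃ n, 𝓕 n = 𝒰 ∧ ∀ F : Finset Y, ∃ᶠ n in atTop, (F : Set Y) ⊆ ⋃₀ 𝓕 n

/-- A sequence of sets with finite fibres whose consecutive blocks of length three capture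
every finite set infinitely often has an `ω`-groupable range. -/
theorem groupable_of_blocks {Y : Type} (U : ℕ → Set Y)
    (hfib : ∀ n, {m | U m = U n}.Finite)
    (hblk : ∀ F : Finset Y, ∃ᶠ m in atTop,
      (F : Set Y) ⊆ U (3 * m) ∪ U (3 * m + 1) ∪ U (3 * m + 2)) :
    StronglyGroupable (range U) := by
  classical
  -- bound for the occurrences
  have hg : ∀ N : ℕ, ∃ g : ℕ, ∀ i < N, ∀ m, U m = U i → m < 3 * g := by
    intro N
    have hfin : (⋃ i ∈ Iio N, {m | U m = U i}).Finite :=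
      Set.Finite.biUnion (finite_Iio N) (fun i _ => hfib i)
    obtain ⟨b, hb⟩ := hfin.bddAbove
    refine ⟨b + 1, fun i hi m hm => ?_⟩
    have : m ≤ b := hb (by
      simp only [mem_iUnion]
      exact ⟨i, hi, hm⟩)
    omega
  choose g hg using hg
  let c : ℕ → ℕ := fun k => Nat.rec 0 (fun _ x => x + 1 + g (3 * x)) k
  have hc0 : c 0 = 0 := rfl
  have hcs : ∀ k, c (k + 1) = c k + 1 + g (3 * c k) := fun k => rfl
  have hcm : StrictMono c := strictMono_nat_of_lt_succ (fun k => by rw [hcs]; omega)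
  have hocc : ∀ k, ∀ i < 3 * c k, ∀ m, U m = U i → m < 3 * c (k + 1) := by
    intro k i hi m hm
    have := hg (3 * c k) i hi m hm
    rw [hcs]; omega
  let good : Finset Y → ℕ → Prop := fun F k => ∃ m, c k ≤ m ∧ m < c (k + 1) ∧
    (F : Set Y) ⊆ U (3 * m) ∪ U (3 * m + 1) ∪ U (3 * m + 2)
  have hgood : ∀ F, ∀ N, ∃ k, N ≤ k ∧ good F k := by
    intro F N
    obtain ⟨m, hm1, hm2⟩ := (frequently_atTop.1 (hblk F)) (c N)
    obtain ⟨k, hk1, hk2⟩ := exists_between hcm m (by rw [hc0]; exact Nat.zero_le _)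
    refine ⟨k, ?_, m, hk1, hk2, hm2⟩
    have h1 : c N < c (k + 1) := lt_of_le_of_lt hm1 hk2
    have h2 : N < k + 1 := hcm.lt_iff_lt.1 h1
    omega
  -- the final partition from an increasing sequence made of the `c k`
  have main : ∀ d : ℕ → ℕ, StrictMono d → d 0 = 0 →
      (∀ i, ∃ k, d (i + 1) = k + 1 ∧ (d i = k - 1)) →
      (∀ F, ∀ N, ∃ i k, N ≤ i ∧ d (i + 1) = k + 1 ∧ d i = k - 1 ∧ 1 ≤ k ∧ good F k) →
      StronglyGroupable (range U) := by
    intro d hd hd0 hd1 hd2
    have hM : StrictMono (fun i => 3 * c (d i)) := by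
      intro i j hij
      have := hcm (hd hij)
      show 3 * c (d i) < 3 * c (d j)
      omega
    have hM0 : (fun i => 3 * c (d i)) 0 = 0 := by
      show 3 * c (d 0) = 0
      rw [hd0, hc0]
    obtain ⟨hP1, hP2⟩ := partition_first U (fun i => 3 * c (d i)) hM hM0
    refine ⟨fun i => U '' Ico (3 * c (d i)) (3 * c (d (i + 1))) \ U '' Iio (3 * c (d i)),
      fun i => ⟨?_, ?_⟩, hP1, hP2, ?_⟩
    · exact ((finite_Ico _ _).image U).subset sdiff_subset
    · obtain ⟨k, hk1, hk2⟩ := hd1 i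
      rcases Nat.eq_zero_or_pos k with h | h
      · -- `d i = 0`
        subst h
        have hdi : d i = 0 := by simpa using hk2
        have h1 : 0 < c (0 + 1) := by rw [hcs]; omega
        refine ⟨U 0, ⟨0, ⟨?_, ?_⟩, rfl⟩, ?_⟩
        · rw [hdi, hc0]
        · rw [hk1]
          omega
        · rintro ⟨j, hj, -⟩
          rw [hdi, hc0] at hj
          simp at hj
      · refine ⟨U (3 * c k), ⟨3 * c k, ⟨?_, ?_⟩, rfl⟩, ?_⟩
        · rw [hk2]
          have : c (k - 1) ≤ c k := hcm.monotone (by omega)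
          omega
        · rw [hk1]
          have : c k < c (k + 1) := hcm (Nat.lt_succ_self k)
          omega
        · rintro ⟨j, hj, hj2⟩
          rw [hk2] at hj
          have h3 := hocc (k - 1) j hj (3 * c k) hj2.symm
          have h4 : k - 1 + 1 = k := by omega
          rw [h4] at h3
          omega
    · intro F
      rw [frequently_atTop]
      intro N
      obtain ⟨i, k, hNi, hk1, hk2, hk3, m, hm1, hm2, hm3⟩ := hd2 F N
      refine ⟨i, hNi, fun y hy => ?_⟩
      have hmem : ∀ r < 3, U (3 * m + r) ∈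
          U '' Ico (3 * c (d i)) (3 * c (d (i + 1))) \ U '' Iio (3 * c (d i)) := by
        intro r hr
        refine ⟨⟨3 * m + r, ⟨?_, ?_⟩, rfl⟩, ?_⟩
        · rw [hk2]
          have : c (k - 1) ≤ c k := hcm.monotone (by omega)
          omega
        · rw [hk1]; omega
        · rintro ⟨j, hj, hj2⟩
          rw [hk2] at hj
          have h3 := hocc (k - 1) j hj (3 * m + r) hj2.symm
          have h4 : k - 1 + 1 = k := by omega
          rw [h4] at h3
          omega
      rcases hm3 hy with (h | h) | h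
      · exact ⟨_, hmem 0 (by norm_num), h⟩
      · exact ⟨_, hmem 1 (by norm_num), h⟩
      · exact ⟨_, hmem 2 (by norm_num), h⟩
  by_cases hodd : ∀ F, ∀ N, ∃ k, N ≤ k ∧ good F (2 * k + 1)
  · refine main (fun i => 2 * i) (fun i j h => by show 2 * i < 2 * j; omega) rfl
      (fun i => ⟨2 * i + 1, by show 2 * (i + 1) = _; omega, by show 2 * i = _; omega⟩) ?_
    intro F N
    obtain ⟨k, hNk, hk⟩ := hodd F N
    exact ⟨k, 2 * k + 1, hNk, by show 2 * (k + 1) = _; omega, by show 2 * k = _; omega,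
      by omega, hk⟩
  · push Not at hodd
    obtain ⟨F₁, N₁, hF₁⟩ := hodd
    refine main (fun i => 2 * i - 1) (fun i j h => by show 2 * i - 1 < 2 * j - 1; omega) rfl
      (fun i => ⟨2 * i, by show 2 * (i + 1) - 1 = _; omega, rfl⟩) ?_
    intro F N
    obtain ⟨k, hk, m, hm1, hm2, hm3⟩ := hgood (F ∪ F₁) (2 * N + 2 * N₁ + 2)
    have hsub : ∀ G : Finset Y, G ⊆ F ∪ F₁ → good G k := by
      intro G hG
      exact ⟨m, hm1, hm2, fun y hy => hm3 (by exact_mod_cast hG hy)⟩
    rcases Nat.even_or_odd' k with ⟨j, hj | hj⟩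
    · refine ⟨j, k, by omega, ?_, ?_, by omega, hsub F Finset.subset_union_left⟩
      · show 2 * (j + 1) - 1 = _; omega
      · show 2 * j - 1 = _; omega
    · exact absurd (hj ▸ hsub F₁ Finset.subset_union_right) (hF₁ j (by omega))

theorem StronglyGroupable.isOmegaGroupable {Y : Type} [TopologicalSpace Y] {𝒰 : Set (Set Y)}
    (h : StronglyGroupable 𝒰) (ho : ∀ U ∈ 𝒰, IsOpen U) : IsOmegaGroupable 𝒰 := by
  obtain ⟨𝓕, h1, h2, h3, h4⟩ := h
  have h5 : ∀ F : Finset Y, ∃ n, (F : Set Y) ⊆ ⋃₀ 𝓕 n := fun F => (h4 F).exists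
  refine ⟨⟨ho, ?_⟩, 𝓕, h1, h2, h3, h5⟩
  rw [eq_univ_iff_forall]
  intro y
  obtain ⟨n, hn⟩ := h5 {y}
  obtain ⟨S, hS, hy⟩ := hn (by simp : y ∈ (({y} : Finset Y) : Set Y))
  exact ⟨S, by rw [← h3]; exact mem_iUnion_of_mem n hS, hy⟩

end Pool.Agent.Y187.SP
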