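import Pool.Agent.Y187.SP.Final

set_option autoImplicit false

namespace Pool.Agent.Y187.SP

open Set Filter Topology

/-- `𝒰` can be partitioned into infinitely many finite covers of `Y`. -/
def IsMultifinite {Y : Type} (𝒰 : Set (Set Y)) : Prop :=
  ∃ 𝓕 : ℕ → Set (Set Y),
    (∀ n, (𝓕 n).Finite ∧ (𝓕 n).Nonempty ∧ ⋃₀ 𝓕 n = univ) ∧
      (∀ m n, m ≠ n → Disjoint (𝓕 m) (𝓕 n)) ∧ ⋃ n, 𝓕 n = 𝒰

/-- `𝒰` is an `ω`-groupable open cover of `Y`, covers not containing `Y` as a member: it is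
multifinite or it has a partition into nonempty finite sets the unions of which form an
`ω`-cover. -/
def IsOmegaGroupableCover {Y : Type} [TopologicalSpace Y] (𝒰 : Set (Set Y)) : Prop :=
  IsOpenCover 𝒰 ∧ univ ∉ 𝒰 ∧ (IsMultifinite 𝒰 ∨ ∃ 𝓕 : ℕ → Set (Set Y),
    (∀ n, (𝓕 n).Finite ∧ (𝓕 n).Nonempty) ∧ (∀ m n, m ≠ n → Disjoint (𝓕 m) (𝓕 n)) ∧
      ⋃ n, 𝓕 n = 𝒰 ∧ IsOmegaCover (range fun n => ⋃₀ 𝓕 n))

/-- `X` has strong measure zero. -/
def StrongMeasureZero (X : Set ℝ) : Prop :=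
  ∀ ε : ℕ → ℝ, (∀ n, 0 < ε n) → ∃ a : ℕ → ℝ, X ⊆ ⋃ n, Ioo (a n) (a n + ε n)

theorem multifinite_of_infinite {Y : Type} {𝒰 : Set (Set Y)} (𝓕 : ℕ → Set (Set Y))
    (h1 : ∀ n, (𝓕 n).Finite ∧ (𝓕 n).Nonempty) (h2 : ∀ m n, m ≠ n → Disjoint (𝓕 m) (𝓕 n))
    (h3 : ⋃ n, 𝓕 n = 𝒰) (h4 : {n | ⋃₀ 𝓕 n = univ}.Infinite) : IsMultifinite 𝒰 := by
  classical
  let e : ℕ → ℕ := Nat.nth (fun n => ⋃₀ 𝓕 n = univ)
  have he : StrictMono e := Nat.nth_strictMono h4
  have he1 : ∀ k, ⋃₀ 𝓕 (e k) = univ := fun k => Nat.nth_mem_of_infinite h4 k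
  let M : ℕ → ℕ := fun k => if k = 0 then 0 else e (k - 1) + 1
  have hM0 : M 0 = 0 := rfl
  have hM1 : ∀ k, M (k + 1) = e k + 1 := fun k => by simp [M]
  have hM : StrictMono M := by
    apply strictMono_nat_of_lt_succ
    intro k
    rw [hM1]
    rcases Nat.eq_zero_or_pos k with h | h
    · rw [h, hM0]; omega
    · have h5 : M k = e (k - 1) + 1 := by
        have := hM1 (k - 1)
        rwa [Nat.sub_add_cancel h] at this
      have h6 : e (k - 1) < e k := he (by omega)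
      omega
  have hlt : ∀ k, M k ≤ e k := fun k => by
    have := hM (Nat.lt_succ_self k)
    rw [Nat.succ_eq_add_one, hM1] at this
    omega
  have hdis : ∀ m n, m < n → Disjoint (⋃ j ∈ Ico (M m) (M (m + 1)), 𝓕 j)
      (⋃ j ∈ Ico (M n) (M (n + 1)), 𝓕 j) := by
    intro m n hmn
    rw [Set.disjoint_left]
    intro S hS hS'
    simp only [mem_iUnion] at hS hS'
    obtain ⟨i, hi, hSi⟩ := hS
    obtain ⟨j, hj, hSj⟩ := hS'
    have h5 : M (m + 1) ≤ M n := hM.monotone hmn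
    have h6 : i ≠ j := by
      have := hi.2
      have := hj.1
      omega
    exact Set.disjoint_left.1 (h2 i j h6) hSi hSj
  refine ⟨fun k => ⋃ j ∈ Ico (M k) (M (k + 1)), 𝓕 j, fun k => ⟨?_, ?_, ?_⟩, ?_, ?_⟩
  · exact (finite_Ico _ _).biUnion (fun j _ => (h1 j).1)
  · obtain ⟨S, hS⟩ := (h1 (e k)).2
    exact ⟨S, mem_biUnion (x := e k) ⟨hlt k, by rw [hM1]; omega⟩ hS⟩
  · rw [eq_univ_iff_forall]
    intro y
    have hy : y ∈ ⋃₀ 𝓕 (e k) := by rw [he1]; exact mem_univ y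
    obtain ⟨S, hS, hyS⟩ := hy
    exact ⟨S, mem_biUnion (x := e k) ⟨hlt k, by rw [hM1]; omega⟩ hS, hyS⟩
  · intro m n hmn
    rcases lt_or_gt_of_ne hmn with h | h
    · exact hdis m n h
    · exact (hdis n m h).symm
  · rw [← h3]
    apply Subset.antisymm
    · intro S hS
      simp only [mem_iUnion] at hS
      obtain ⟨k, j, -, hS⟩ := hS
      exact mem_iUnion_of_mem j hS
    · intro S hS
      rw [mem_iUnion] at hS
      obtain ⟨j, hS⟩ := hS
      obtain ⟨k, hk1, hk2⟩ := exists_between hM j (by rw [hM0]; exact Nat.zero_le _)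
      exact mem_iUnion_of_mem k (mem_biUnion (x := j) ⟨hk1, hk2⟩ hS)

theorem StronglyGroupable.isOmegaGroupableCover {Y : Type} [TopologicalSpace Y]
    {𝒰 : Set (Set Y)} (h : StronglyGroupable 𝒰) (ho : ∀ U ∈ 𝒰, IsOpen U) (hu : univ ∉ 𝒰) :
    IsOmegaGroupableCover 𝒰 := by
  classical
  have hc : IsOpenCover 𝒰 := (h.isOmegaGroupable ho).1
  obtain ⟨𝓕, h1, h2, h3, h4⟩ := h
  refine ⟨hc, hu, ?_⟩
  by_cases hinf : {n | ⋃₀ 𝓕 n = univ}.Infinite
  · exact Or.inl (multifinite_of_infinite 𝓕 h1 h2 h3 hinf)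
  · right
    rw [not_infinite] at hinf
    set A : Set ℕ := {n | ⋃₀ 𝓕 n = univ} with hA
    have hS : (⋃ n ∈ A, 𝓕 n).Finite := hinf.biUnion (fun n _ => (h1 n).1)
    have : Finite ↥(⋃ n ∈ A, 𝓕 n) := hS
    have hAc : (Aᶜ).Infinite := hinf.infinite_compl
    have : Infinite ↥(Aᶜ) := hAc.to_subtype
    let ι := ↥(Aᶜ) ⊕ ↥(⋃ n ∈ A, 𝓕 n)
    let H : ι → Set (Set Y) := Sum.elim (fun n => 𝓕 n.1) (fun U => {U.1})
    obtain ⟨e⟩ : Nonempty (ℕ ≃ ι) := nonempty_equiv_of_countable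
    have hH1 : ∀ i, (H i).Finite ∧ (H i).Nonempty := by
      rintro (n | U)
      · exact h1 n.1
      · exact ⟨finite_singleton _, singleton_nonempty _⟩
    have hH2 : ∀ i j, i ≠ j → Disjoint (H i) (H j) := by
      have key : ∀ (n : ↥(Aᶜ)) (U : ↥(⋃ n ∈ A, 𝓕 n)), Disjoint (𝓕 n.1) {U.1} := by
        rintro ⟨n, hn⟩ ⟨U, hU⟩
        rw [Set.disjoint_singleton_right]
        intro hUn
        simp only [mem_iUnion] at hU
        obtain ⟨m, hm, hUm⟩ := hU
        have hne : n ≠ m := fun e => hn (e ▸ hm)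
        exact Set.disjoint_left.1 (h2 n m hne) hUn hUm
      rintro (n | U) (m | V) hij
      · exact h2 _ _ (fun e => hij (by rw [Subtype.ext e]))
      · exact key n V
      · exact (key m U).symm
      · show Disjoint ({U.1} : Set (Set Y)) {V.1}
        rw [Set.disjoint_singleton]
        exact fun e => hij (by rw [Subtype.ext e])
    have hH3 : ⋃ i, H i = 𝒰 := by
      rw [← h3]
      apply Subset.antisymm
      · intro S hS
        rw [mem_iUnion] at hS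
        obtain ⟨n | U, hS⟩ := hS
        · exact mem_iUnion_of_mem n.1 hS
        · have hSU : S = U.1 := hS
          have := U.2
          rw [← hSU] at this
          simp only [mem_iUnion] at this
          obtain ⟨n, -, hn⟩ := this
          exact mem_iUnion_of_mem n hn
      · intro S hS
        rw [mem_iUnion] at hS
        obtain ⟨n, hn⟩ := hS
        by_cases hnA : n ∈ A
        · exact mem_iUnion_of_mem (Sum.inr ⟨S, mem_biUnion hnA hn⟩) rfl
        · exact mem_iUnion_of_mem (Sum.inl ⟨n, hnA⟩) hn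
    have hH4 : ∀ i, ⋃₀ H i ≠ univ := by
      rintro (⟨n, hn⟩ | ⟨U, hU⟩)
      · exact hn
      · intro e
        have e2 : U = univ := by
          rw [← e]
          show U = ⋃₀ {U}
          rw [sUnion_singleton]
        simp only [mem_iUnion] at hU
        obtain ⟨m, hm, hUm⟩ := hU
        apply hu
        rw [← h3, ← e2]
        exact mem_iUnion_of_mem m hUm
    have hH5 : ∀ F : Finset Y, ∃ i, (F : Set Y) ⊆ ⋃₀ H i := by
      intro F
      obtain ⟨b, hb⟩ := hinf.bddAbove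
      obtain ⟨n, hn1, hn2⟩ := frequently_atTop.1 (h4 F) (b + 1)
      refine ⟨Sum.inl ⟨n, fun hnA => ?_⟩, hn2⟩
      have := hb hnA
      omega
    refine ⟨fun n => H (e n), fun n => hH1 _, fun m n hmn => hH2 _ _ (e.injective.ne hmn), ?_,
      ⟨⟨?_, ?_⟩, ?_, ?_⟩⟩
    · rw [← hH3]
      exact e.surjective.iUnion_comp H
    · rintro _ ⟨n, rfl⟩
      apply isOpen_sUnion
      intro U hU
      apply ho
      rw [← hH3]
      exact mem_iUnion_of_mem (e n) hU
    · rw [eq_univ_iff_forall]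
      intro y
      obtain ⟨i, hi⟩ := hH5 {y}
      refine ⟨⋃₀ H i, ⟨e.symm i, by simp⟩, hi (by simp)⟩
    · rintro ⟨n, hn⟩
      exact hH4 (e n) hn
    · intro F
      obtain ⟨i, hi⟩ := hH5 F
      exact ⟨⋃₀ H i, ⟨e.symm i, by simp⟩, hi⟩

theorem exists_X_groupableCover (hCH : Cardinal.aleph 1 = Cardinal.continuum.{0}) :
    ∃ X : Set ℝ, S1 (Y := X) IsOmegaCover IsOmegaGroupableCover ∧
      ¬ S1 (Y := X) IsOmegaCover IsOmegaCover := by
  obtain ⟨X, h1, h2⟩ := exists_separation hCH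
  refine ⟨X, fun 𝒰 h𝒰 => ?_, not_S1_omega_omega X h2⟩
  obtain ⟨U, hU1, hU2⟩ := h1 𝒰 h𝒰
  refine ⟨U, hU1, hU2.isOmegaGroupableCover ?_ ?_⟩
  · rintro V ⟨n, rfl⟩
    exact (h𝒰 n).1.1 _ (hU1 n)
  · rintro ⟨n, hn⟩
    exact (h𝒰 n).2.1 (hn ▸ hU1 n)

/-- one-point selections from `ω`-covers into covers imply strong measure zero -/
theorem strongMeasureZero_of_S1 (X : Set ℝ) (B : Set (Set X) → Prop)
    (hB : ∀ 𝒰, B 𝒰 → ⋃₀ 𝒰 = univ) (h : S1 (Y := X) IsOmegaCover B) : StrongMeasureZero X := by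
  classical
  intro ε hε
  let 𝒲 : ℕ → Set (Set X) := fun n => {U | ∃ k : ℕ, ∃ a : ℕ → ℝ, U = Subtype.val ⁻¹'
    (⋃ i ∈ Iio k, Ioo (a i) (a i + ε (Nat.pair n i)))}
  by_cases hW : ∃ n, univ ∈ 𝒲 n
  · obtain ⟨n, k, a, ha⟩ := hW
    refine ⟨fun m => a (Nat.unpair m).2, fun x hx => ?_⟩
    have h1 : (⟨x, hx⟩ : X) ∈ (Subtype.val ⁻¹'
      (⋃ i ∈ Iio k, Ioo (a i) (a i + ε (Nat.pair n i))) : Set X) := ha ▸ mem_univ _
    have h1 : x ∈ ⋃ i ∈ Iio k, Ioo (a i) (a i + ε (Nat.pair n i)) := h1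
    simp only [mem_iUnion] at h1
    obtain ⟨i, -, hi⟩ := h1
    refine mem_iUnion_of_mem (Nat.pair n i) ?_
    simpa using hi
  · push Not at hW
    have hcov : ∀ n, ∀ F : Finset X, ∃ U ∈ 𝒲 n, (F : Set X) ⊆ U := by
      intro n F
      let l := F.toList
      refine ⟨_, ⟨l.length, fun i => (if h : i < l.length then ((l.get ⟨i, h⟩ : X) : ℝ) else 0)
        - ε (Nat.pair n i) / 2, rfl⟩, ?_⟩
      intro y hy
      have hy' : y ∈ l := Finset.mem_toList.2 hy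
      obtain ⟨⟨i, hi⟩, hiy⟩ := List.mem_iff_get.1 hy'
      rw [mem_preimage]
      refine mem_biUnion (x := i) hi ?_
      beta_reduce
      rw [dif_pos hi, hiy]
      have := hε (Nat.pair n i)
      constructor <;> linarith
    obtain ⟨U, hU1, hU2⟩ := h 𝒲 (by
      intro n
      refine ⟨⟨?_, ?_⟩, hW n, hcov n⟩
      · rintro U ⟨k, a, rfl⟩
        exact (isOpen_biUnion (fun i _ => isOpen_Ioo)).preimage continuous_subtype_val
      · rw [eq_univ_iff_forall]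
        intro y
        obtain ⟨U, hU, hyU⟩ := hcov n {y}
        exact ⟨U, hU, hyU (by simp)⟩)
    have hU3 := hB _ hU2
    choose k a hka using hU1
    refine ⟨fun m => a (Nat.unpair m).1 (Nat.unpair m).2, fun x hx => ?_⟩
    have h1 : (⟨x, hx⟩ : X) ∈ ⋃₀ range U := hU3 ▸ mem_univ _
    obtain ⟨_, ⟨n, rfl⟩, hn⟩ := h1
    rw [hka n] at hn
    have h2 : x ∈ ⋃ i ∈ Iio (k n), Ioo (a n i) (a n i + ε (Nat.pair n i)) := hn
    simp only [mem_iUnion] at h2
    obtain ⟨i, -, hi⟩ := h2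
    refine mem_iUnion_of_mem (Nat.pair n i) ?_
    simpa using hi

/-- a countable set has every one-point selection property considered -/
theorem selection_of_countable (X : Set ℝ) (hX : X.Countable) (𝒰 : ℕ → Set (Set X))
    (h𝒰 : ∀ n, IsOmegaCover (𝒰 n)) :
    ∃ U : ℕ → Set X, (∀ n, U n ∈ 𝒰 n) ∧ IsOmegaCover (range U) ∧
      StronglyGroupable (range U) := by
  classical
  have hne : Nonempty X := by
    by_contra hemp
    rw [not_nonempty_iff] at hemp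
    obtain ⟨U, hU, -⟩ := (h𝒰 0).2.2 ∅
    apply (h𝒰 0).2.1
    have : U = univ := Subsingleton.elim _ _
    rw [← this]; exact hU
  have : Countable X := hX.to_subtype
  obtain ⟨p, hp⟩ := exists_surjective_nat X
  obtain ⟨P, hP⟩ := wf_choice (T := ℕ) (β := Set X) (r := (· < ·)) wellFounded_lt
    (fun n f b => b ∈ 𝒰 n ∧ (∀ m (hm : m < n), b ≠ f m hm) ∧ ∀ i ≤ n, p i ∈ b) (by
    intro n f
    obtain ⟨A, hA1, hA2, hA3⟩ := (h𝒰 n).exists_avoid
      ((Finset.range (n + 1)).image p) (range (fun m : Fin n => f m.1 m.2)) (finite_range _)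
    refine ⟨A, hA1, fun m hm e => hA3 ⟨⟨m, hm⟩, e.symm⟩, fun i hi => hA2 ?_⟩
    rw [Finset.mem_coe, Finset.mem_image]
    exact ⟨i, Finset.mem_range.2 (by omega), rfl⟩)
  have hP' : Function.Injective P := by
    intro m n hmn
    rcases lt_trichotomy m n with h | h | h
    · exact absurd hmn.symm ((hP n).2.1 m h)
    · exact h
    · exact absurd hmn ((hP m).2.1 n h)
  choose q hq using hp
  have hF : ∀ F : Finset X, ∀ n, F.sup q ≤ n → (F : Set X) ⊆ P n := by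
    intro F n hn y hy
    have := (hP n).2.2 (q y) ((Finset.le_sup hy).trans hn)
    rwa [hq] at this
  refine ⟨P, fun n => (hP n).1, ⟨⟨?_, ?_⟩, ?_, ?_⟩, ?_⟩
  · rintro _ ⟨n, rfl⟩
    exact (h𝒰 n).1.1 _ (hP n).1
  · rw [eq_univ_iff_forall]
    intro y
    exact ⟨P (q y), mem_range_self _, by
      have := (hP (q y)).2.2 (q y) le_rfl
      rwa [hq] at this⟩
  · rintro ⟨n, hn⟩
    exact (h𝒰 n).2.1 (hn ▸ (hP n).1)
  · intro F
    exact ⟨P (F.sup q), mem_range_self _, hF F _ le_rfl⟩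
  · refine ⟨fun n => {P n}, fun n => ⟨finite_singleton _, singleton_nonempty _⟩, ?_, ?_, ?_⟩
    · intro m n hmn
      rw [Set.disjoint_singleton]
      exact hP'.ne hmn
    · exact iUnion_singleton_eq_range P
    · intro F
      apply Eventually.frequently
      rw [eventually_atTop]
      refine ⟨F.sup q, fun n hn => ?_⟩
      rw [sUnion_singleton]
      exact hF F n hn

theorem iff_of_borel (hBC : ∀ X : Set ℝ, StrongMeasureZero X → X.Countable) (X : Set ℝ) :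
    S1 (Y := X) IsOmegaCover IsOmegaCover ↔ S1 (Y := X) IsOmegaCover IsOmegaGroupableCover := by
  constructor
  · intro h
    have hX : X.Countable := hBC X (strongMeasureZero_of_S1 X _ (fun 𝒰 h => h.1.2) h)
    intro 𝒰 h𝒰
    obtain ⟨U, hU1, -, hU2⟩ := selection_of_countable X hX 𝒰 h𝒰
    refine ⟨U, hU1, hU2.isOmegaGroupableCover ?_ ?_⟩
    · rintro V ⟨n, rfl⟩
      exact (h𝒰 n).1.1 _ (hU1 n)
    · rintro ⟨n, hn⟩
      exact (h𝒰 n).2.1 (hn ▸ hU1 n)
  · intro h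
    have hX : X.Countable := hBC X (strongMeasureZero_of_S1 X _ (fun 𝒰 h => h.1.2) h)
    intro 𝒰 h𝒰
    obtain ⟨U, hU1, hU2, -⟩ := selection_of_countable X hX 𝒰 h𝒰
    exact ⟨U, hU1, hU2⟩

end Pool.Agent.Y187.SP
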