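import Pool.Agent.Y187.SP.Build

set_option autoImplicit false

namespace Pool.Agent.Y187.SP

open Set Filter Topology

/-- choice of an injective sequence of members of `ω`-covers with a further property -/
theorem exists_pair (J : ℕ → Set ℝ) (hJo : ∀ j, IsOpen (J j))
    (hJb : ∀ O : Set ℝ, IsOpen O → ∀ x ∈ O, ∃ j, x ∈ J j ∧ J j ⊆ O) (X : Set ℝ)
    (hX1 : ∀ j, ∃ y ∈ X, y ∈ J j) (E : Set X → Set ℝ)
    (hE : ∀ U : Set X, IsOpen U → IsOpen (E U) ∧ Subtype.val ⁻¹' (E U) = U)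
    (𝒰 𝒱 : Set (Set X)) (h𝒰 : IsOmegaCover 𝒰) (h𝒱 : IsOmegaCover 𝒱)
    (𝒮 𝒮' : Set (Set X)) (h𝒮 : 𝒮.Finite) (h𝒮' : 𝒮'.Finite) (n : ℕ) :
    ∃ A ∈ 𝒰, ∃ B ∈ 𝒱, A ∉ 𝒮 ∧ B ∉ 𝒮' ∧ ∀ z : ℝ, |z| ≤ n → ∀ i ≤ n, ∃ x ∈ J i,
      x ∈ E A ∪ E B ∧ z - x ∈ E A ∪ E B := by
  classical
  choose y hyX hyJ using hX1
  obtain ⟨A, hA1, hA2, hA3⟩ := h𝒰.exists_avoid
    ((Finset.range (n + 1)).image (fun i => (⟨y i, hyX i⟩ : X))) 𝒮 h𝒮
  have hAo := hE A (h𝒰.1.1 A hA1)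
  have hyA : ∀ i ≤ n, y i ∈ E A := by
    intro i hi
    have h1 : (⟨y i, hyX i⟩ : X) ∈ A := hA2 (by
      rw [Finset.mem_coe, Finset.mem_image]
      exact ⟨i, Finset.mem_range.2 (by omega), rfl⟩)
    rw [← hAo.2] at h1
    exact h1
  -- a common radius
  have hδ : ∀ i, ∃ δ > 0, i ≤ n → Metric.ball (y i) δ ⊆ E A ∩ J i := by
    intro i
    by_cases hi : i ≤ n
    · obtain ⟨δ, hδ, h⟩ := Metric.isOpen_iff.1 (hAo.1.inter (hJo i)) (y i) ⟨hyA i hi, hyJ i⟩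
      exact ⟨δ, hδ, fun _ => h⟩
    · exact ⟨1, one_pos, fun h => absurd h hi⟩
  choose δ hδ0 hδ using hδ
  obtain ⟨i₀, -, hi₀⟩ := (Finset.range (n + 1)).exists_min_image δ ⟨0, by simp⟩
  obtain ⟨i₁, -, hi₁⟩ := (Finset.range (n + 1)).exists_max_image (fun i => |y i|) ⟨0, by simp⟩
  have hball : ∀ i ≤ n, Metric.ball (y i) (δ i₀) ⊆ E A ∩ J i := fun i hi =>
    (Metric.ball_subset_ball (hi₀ i (Finset.mem_range.2 (by omega)))).trans (hδ i hi)
  -- a finite net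
  have hnet : Icc (-(n + |y i₁|)) (n + |y i₁|) ⊆ ⋃ g : X, Metric.ball (g : ℝ) (δ i₀) := by
    intro w _
    obtain ⟨j, hj1, hj2⟩ := hJb (Metric.ball w (δ i₀)) Metric.isOpen_ball w
      (Metric.mem_ball_self (hδ0 i₀))
    refine mem_iUnion.2 ⟨⟨y j, hyX j⟩, ?_⟩
    have := hj2 (hyJ j)
    rw [Metric.mem_ball] at this ⊢
    rw [dist_comm]; exact this
  obtain ⟨G, hG⟩ := isCompact_Icc.elim_finite_subcover (fun g : X => Metric.ball (g : ℝ) (δ i₀))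
    (fun _ => Metric.isOpen_ball) hnet
  obtain ⟨B, hB1, hB2, hB3⟩ := h𝒱.exists_avoid G 𝒮' h𝒮'
  have hBo := hE B (h𝒱.1.1 B hB1)
  refine ⟨A, hA1, B, hB1, hA3, hB3, fun z hz i hi => ?_⟩
  have h1 : z - y i ∈ Icc (-(n + |y i₁|)) (n + |y i₁|) := by
    have h2 : |y i| ≤ |y i₁| := hi₁ i (Finset.mem_range.2 (by omega))
    have h3 : |z - y i| ≤ n + |y i₁| := (abs_sub z (y i)).trans (by linarith)
    exact abs_le.1 h3
  have h2 := hG h1
  simp only [mem_iUnion] at h2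
  obtain ⟨g, hgG, hg⟩ := h2
  have h3 : z - (g : ℝ) ∈ Metric.ball (y i) (δ i₀) := by
    rw [Metric.mem_ball, Real.dist_eq] at hg ⊢
    have : z - (g : ℝ) - y i = z - y i - g := by ring
    rw [this]; exact hg
  have h4 := hball i hi h3
  have h5 : (g : ℝ) ∈ E B := by
    have h6 : g ∈ B := hB2 hgG
    rw [← hBo.2] at h6
    exact h6
  refine ⟨z - g, h4.2, Or.inl h4.1, Or.inr ?_⟩
  have : z - (z - (g : ℝ)) = g := by ring
  rw [this]; exact h5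

theorem selection (J : ℕ → Set ℝ) (hJo : ∀ j, IsOpen (J j))
    (hJb : ∀ O : Set ℝ, IsOpen O → ∀ x ∈ O, ∃ j, x ∈ J j ∧ J j ⊆ O) (X : Set ℝ)
    (hX1 : ∀ j, ∃ y ∈ X, y ∈ J j)
    (hX3 : ∀ W : ℕ → Set ℝ, (∀ n, IsOpen (W n)) → Good J W → ∃ C ⊆ X, C.Countable ∧
        ∀ F : Finset ℝ, (∀ y ∈ F, y ∈ X ∧ y ∉ C) → {n | ∀ y ∈ F, y ∈ W n}.Infinite)
    (𝒰 : ℕ → Set (Set X)) (h𝒰 : ∀ n, IsOmegaCover (𝒰 n)) :
    ∃ U : ℕ → Set X, (∀ n, U n ∈ 𝒰 n) ∧ StronglyGroupable (range U) := by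
  classical
  have hE : ∀ U : Set X, ∃ O : Set ℝ, IsOpen U → IsOpen O ∧ Subtype.val ⁻¹' O = U := by
    intro U
    by_cases hU : IsOpen U
    · obtain ⟨O, hO1, hO2⟩ := isOpen_induced_iff.1 hU
      exact ⟨O, fun _ => ⟨hO1, hO2⟩⟩
    · exact ⟨∅, fun h => absurd h hU⟩
  choose E hE using hE
  obtain ⟨AB, hAB⟩ := wf_choice (T := ℕ) (β := Set X × Set X) (r := (· < ·)) wellFounded_lt
    (fun n f b => b.1 ∈ 𝒰 (3 * n) ∧ b.2 ∈ 𝒰 (3 * n + 1) ∧
      (∀ m (hm : m < n), b.1 ≠ (f m hm).1 ∧ b.2 ≠ (f m hm).2) ∧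
      ∀ z : ℝ, |z| ≤ n → ∀ i ≤ n, ∃ x ∈ J i, x ∈ E b.1 ∪ E b.2 ∧ z - x ∈ E b.1 ∪ E b.2) (by
    intro n f
    obtain ⟨A, hA1, B, hB1, hA2, hB2, h⟩ := exists_pair J hJo hJb X hX1 E hE (𝒰 (3 * n))
      (𝒰 (3 * n + 1)) (h𝒰 _) (h𝒰 _) (range (fun m : Fin n => (f m.1 m.2).1))
      (range (fun m : Fin n => (f m.1 m.2).2)) (finite_range _) (finite_range _) n
    refine ⟨(A, B), hA1, hB1, fun m hm => ⟨fun e => hA2 ⟨⟨m, hm⟩, e.symm⟩,
      fun e => hB2 ⟨⟨m, hm⟩, e.symm⟩⟩, h⟩)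
  have hgood : Good J (fun n => E (AB n).1 ∪ E (AB n).2) := by
    intro z j
    obtain ⟨N, hN⟩ := exists_nat_ge |z|
    rw [eventually_atTop]
    refine ⟨max N j, fun n hn => ?_⟩
    have h1 : (N : ℝ) ≤ n := by exact_mod_cast (le_max_left N j).trans hn
    exact (hAB n).2.2.2 z (hN.trans h1) j ((le_max_right N j).trans hn)
  obtain ⟨C, hCX, hC, hCF⟩ := hX3 _ (fun n => ((hE _ ((h𝒰 _).1.1 _ (hAB n).1)).1).union
    ((hE _ ((h𝒰 _).1.1 _ (hAB n).2.1)).1)) hgood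
  obtain ⟨y₀, hy₀, -⟩ := hX1 0
  have hne : Nonempty X := ⟨⟨y₀, hy₀⟩⟩
  have hC' : {y : X | (y : ℝ) ∈ C}.Countable :=
    hC.preimage_of_injOn (f := (Subtype.val : X → ℝ)) Subtype.val_injective.injOn
  obtain ⟨p, hp⟩ := countable_iff_exists_subset_range.1 hC'
  obtain ⟨P, hP⟩ := wf_choice (T := ℕ) (β := Set X) (r := (· < ·)) wellFounded_lt
    (fun n f b => b ∈ 𝒰 (3 * n + 2) ∧ (∀ m (hm : m < n), b ≠ f m hm) ∧ ∀ i ≤ n, p i ∈ b) (by
    intro n f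
    obtain ⟨A, hA1, hA2, hA3⟩ := (h𝒰 (3 * n + 2)).exists_avoid
      ((Finset.range (n + 1)).image p) (range (fun m : Fin n => f m.1 m.2)) (finite_range _)
    refine ⟨A, hA1, fun m hm e => hA3 ⟨⟨m, hm⟩, e.symm⟩, fun i hi => hA2 ?_⟩
    rw [Finset.mem_coe, Finset.mem_image]
    exact ⟨i, Finset.mem_range.2 (by omega), rfl⟩)
  have hA : Function.Injective (fun n => (AB n).1) := by
    intro m n hmn
    rcases lt_trichotomy m n with h | h | h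
    · exact absurd hmn.symm ((hAB n).2.2.1 m h).1
    · exact h
    · exact absurd hmn ((hAB m).2.2.1 n h).1
  have hB : Function.Injective (fun n => (AB n).2) := by
    intro m n hmn
    rcases lt_trichotomy m n with h | h | h
    · exact absurd hmn.symm ((hAB n).2.2.1 m h).2
    · exact h
    · exact absurd hmn ((hAB m).2.2.1 n h).2
  have hP' : Function.Injective P := by
    intro m n hmn
    rcases lt_trichotomy m n with h | h | h
    · exact absurd hmn.symm ((hP n).2.1 m h)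
    · exact h
    · exact absurd hmn ((hP m).2.1 n h)
  let U : ℕ → Set X := fun k =>
    if k % 3 = 0 then (AB (k / 3)).1 else if k % 3 = 1 then (AB (k / 3)).2 else P (k / 3)
  have hU0 : ∀ n, U (3 * n) = (AB n).1 := by
    intro n
    have h1 : 3 * n % 3 = 0 := by omega
    have h2 : 3 * n / 3 = n := by omega
    simp only [U, h1, h2, if_true]
  have hU1 : ∀ n, U (3 * n + 1) = (AB n).2 := by
    intro n
    have h1 : (3 * n + 1) % 3 = 1 := by omega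
    have h2 : (3 * n + 1) / 3 = n := by omega
    simp only [U, h1, h2, if_true, one_ne_zero, if_false]
  have hU2 : ∀ n, U (3 * n + 2) = P n := by
    intro n
    have h1 : (3 * n + 2) % 3 = 2 := by omega
    have h2 : (3 * n + 2) / 3 = n := by omega
    simp only [U, h1, h2]
    norm_num
  have hcases : ∀ k, (∃ n, k = 3 * n) ∨ (∃ n, k = 3 * n + 1) ∨ (∃ n, k = 3 * n + 2) := by
    intro k
    have h1 : k % 3 = 0 ∨ k % 3 = 1 ∨ k % 3 = 2 := by omega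
    rcases h1 with h | h | h
    · exact Or.inl ⟨k / 3, by omega⟩
    · exact Or.inr (Or.inl ⟨k / 3, by omega⟩)
    · exact Or.inr (Or.inr ⟨k / 3, by omega⟩)
  refine ⟨U, ?_, groupable_of_blocks U ?_ ?_⟩
  · intro k
    rcases hcases k with ⟨n, rfl⟩ | ⟨n, rfl⟩ | ⟨n, rfl⟩
    · rw [hU0]; exact (hAB n).1
    · rw [hU1]; exact (hAB n).2.1
    · rw [hU2]; exact (hP n).1
  · intro k
    have h1 : {m | U m = U k} ⊆ ((fun n => 3 * n) '' {n | (AB n).1 = U k}) ∪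
        ((fun n => 3 * n + 1) '' {n | (AB n).2 = U k}) ∪
        ((fun n => 3 * n + 2) '' {n | P n = U k}) := by
      intro m hm
      have hm : U m = U k := hm
      rcases hcases m with ⟨n, rfl⟩ | ⟨n, rfl⟩ | ⟨n, rfl⟩
      · rw [hU0] at hm
        exact Or.inl (Or.inl ⟨n, hm, rfl⟩)
      · rw [hU1] at hm
        exact Or.inl (Or.inr ⟨n, hm, rfl⟩)
      · rw [hU2] at hm
        exact Or.inr ⟨n, hm, rfl⟩
    have s1 : {n | (AB n).1 = U k}.Subsingleton := fun a ha b hb => hA (ha.trans hb.symm)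
    have s2 : {n | (AB n).2 = U k}.Subsingleton := fun a ha b hb => hB (ha.trans hb.symm)
    have s3 : {n | P n = U k}.Subsingleton := fun a ha b hb => hP' (ha.trans hb.symm)
    exact (((s1.finite.image _).union (s2.finite.image _)).union (s3.finite.image _)).subset h1
  · intro F
    rw [frequently_atTop]
    intro M
    have hF' := hCF ((F.filter (fun y : X => (y : ℝ) ∉ C)).image (Subtype.val : X → ℝ)) (by
      intro y hy
      obtain ⟨x, hx, rfl⟩ := Finset.mem_image.1 hy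
      exact ⟨x.2, (Finset.mem_filter.1 hx).2⟩)
    have hN : ∃ N, ∀ y ∈ F, (y : ℝ) ∈ C → ∃ i ≤ N, p i = y := by
      have h1 : ∀ y : X, ∃ i, (y : ℝ) ∈ C → p i = y := by
        intro y
        by_cases hy : (y : ℝ) ∈ C
        · obtain ⟨i, hi⟩ := hp hy
          exact ⟨i, fun _ => hi⟩
        · exact ⟨0, fun h => absurd h hy⟩
      choose i hi using h1
      refine ⟨F.sup i, fun y hy hyC => ⟨i y, Finset.le_sup hy, hi y hyC⟩⟩
    obtain ⟨N, hN⟩ := hN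
    obtain ⟨n, hn1, hn2⟩ := hF'.exists_gt (max M N)
    refine ⟨n, by omega, fun y hy => ?_⟩
    rw [hU0, hU1, hU2]
    by_cases hyC : (y : ℝ) ∈ C
    · obtain ⟨i, hi, hiy⟩ := hN y hy hyC
      right
      rw [← hiy]
      exact (hP n).2.2 i (by omega)
    · left
      have h1 : (y : ℝ) ∈ E (AB n).1 ∪ E (AB n).2 := hn1 y (Finset.mem_image.2
        ⟨y, Finset.mem_filter.2 ⟨hy, hyC⟩, rfl⟩)
      rcases h1 with h1 | h1
      · left
        have := (hE _ ((h𝒰 _).1.1 _ (hAB n).1)).2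
        rw [← this]; exact h1
      · right
        have := (hE _ ((h𝒰 _).1.1 _ (hAB n).2.1)).2
        rw [← this]; exact h1

end Pool.Agent.Y187.SP
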