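import Pool.Agent.Y187.SP.Multi
import Pool.Agent.Helper292.ForceCH

/-!
The classes `S₁(Ω, Ω)` and `S₁(Ω, O^{ω-gp})` of sets of reals differ under the continuum hypothesis
(which is forced by a forcing notion preserving `ω₁`), and coincide if every set of reals of strong
measure zero is countable.
-/

set_option autoImplicit false

namespace Pool.Agent.Y187.SP.Twin

open Pool.Agent.Y187.SP

theorem differ_and_coincide :
    (∃ (P : Type) (_ : Preorder P), Nonempty P ∧ ∀ p : P,
      p ∈ Pool.Agent.Helper292.ForceCH.OmegaOnePreserved P ∧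
      p ∈ Pool.Agent.Helper292.ForceCH.CHHolds P) ∧
    (Cardinal.aleph 1 = Cardinal.continuum.{0} →
      ∃ X : Set ℝ, S1 (Y := X) IsOmegaCover IsOmegaGroupableCover ∧
        ¬ S1 (Y := X) IsOmegaCover IsOmegaCover) ∧
    ((∀ X : Set ℝ, StrongMeasureZero X → X.Countable) →
      ∀ X : Set ℝ, S1 (Y := X) IsOmegaCover IsOmegaCover ↔
        S1 (Y := X) IsOmegaCover IsOmegaGroupableCover) := by
  refine ⟨?_, exists_X_groupableCover, iff_of_borel⟩
  obtain ⟨P, i, h1, h2⟩ := Pool.Agent.Helper292.ForceCH.exists_forcing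
  exact ⟨P, i, h1, fun p => ⟨(h2 p).1, (h2 p).2.2⟩⟩

end Pool.Agent.Y187.SP.Twin
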